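import Mathlib
import Pool.Agent.Helper86.AP.Goals

/-!
# MP_bec853_al, project AP, packet WLE: the low entropy words have finite weight
-/

set_option autoImplicit false

namespace Pool.Agent.Helper12.AP

open Pool.Agent.Helper35.PP Pool.Agent.Helper86.AP
open scoped ENNReal

theorem W_Mp_le {β : Type} (z : ℝ≥0∞) (M : Set (List β)) (k : ℕ) :
    W z (Mp M k) ≤ (W z M) ^ k := by
  induction k with
  | zero =>
    have h : Mp M 0 = {[]} := rfl
    rw [h, W_singleton]
    simp
  | succ k ih =>
    have h : Mp M (k + 1) = app M (Mp M k) := rfl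
    rw [h, pow_succ, mul_comm]
    exact (W_app_le z M (Mp M k)).trans (mul_le_mul_right ih _)

/-- a periodic word is determined by its suffix, its length and its period -/
theorem det {β : Type} (S0 s s' : List β) (q : ℕ) (hq : 1 ≤ q) (hl : s.length = s'.length)
    (h1 : ∀ h, h < s.length → (s ++ S0)[h]? = (s ++ S0)[h + q]?)
    (h2 : ∀ h, h < s.length → (s' ++ S0)[h]? = (s' ++ S0)[h + q]?) :
    s ++ S0 = s' ++ S0 := by
  have key : ∀ m h, s.length + S0.length ≤ h + m → (s ++ S0)[h]? = (s' ++ S0)[h]? := by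
    intro m
    induction m with
    | zero =>
      intro h hh
      rw [List.getElem?_eq_none (by simp; omega), List.getElem?_eq_none (by simp; omega)]
    | succ m ih =>
      intro h hh
      by_cases hs : h < s.length
      · rw [h1 h hs, h2 h hs]
        exact ih (h + q) (by omega)
      · rw [List.getElem?_append_right (by omega), List.getElem?_append_right (by omega), hl]
  refine List.ext_getElem? fun h => key (s.length + S0.length) h (by omega)

theorem ex_pow_bound {z z' : ℝ} (hz : 0 < z) (hzz : z < z') :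
    ∃ C : ℝ, 0 ≤ C ∧ ∀ n : ℕ, ((n : ℝ) + 2) * z ^ n ≤ C * z' ^ n := by
  have hs : 0 < z' / z - 1 := by
    rw [sub_pos, lt_div_iff₀ hz]
    linarith
  refine ⟨2 + 1 / (z' / z - 1), by positivity, fun n => ?_⟩
  have h1 : 1 + (n : ℝ) * (z' / z - 1) ≤ (z' / z) ^ n := by
    have := one_add_mul_le_pow (a := z' / z - 1) (by linarith) n
    simpa using this
  have h2 : z' ^ n = z ^ n * (z' / z) ^ n := by
    rw [← mul_pow]
    congr 1
    field_simp
  have h3 : ((n : ℝ) + 2) ≤ (2 + 1 / (z' / z - 1)) * (1 + (n : ℝ) * (z' / z - 1)) := by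
    have h4 : 1 / (z' / z - 1) * ((n : ℝ) * (z' / z - 1)) = n := by
      have h0 := hs.ne'
      rw [one_div, mul_comm, mul_assoc, mul_inv_cancel₀ h0, mul_one]
    have h5 : 0 ≤ 1 / (z' / z - 1) := by positivity
    have h6 : 0 ≤ (n : ℝ) * (z' / z - 1) := by positivity
    nlinarith
  calc ((n : ℝ) + 2) * z ^ n
      ≤ ((2 + 1 / (z' / z - 1)) * (1 + (n : ℝ) * (z' / z - 1))) * z ^ n :=
        mul_le_mul_of_nonneg_right h3 (by positivity)
    _ ≤ ((2 + 1 / (z' / z - 1)) * (z' / z) ^ n) * z ^ n := by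
        refine mul_le_mul_of_nonneg_right (mul_le_mul_of_nonneg_left h1 ?_) (by positivity)
        positivity
    _ = (2 + 1 / (z' / z - 1)) * z' ^ n := by
        rw [h2]
        ring

theorem tWLE : S_WLE := by
  intro β M z z' hz hzz hz1 hM
  obtain ⟨C, hC0, hC⟩ := ex_pow_bound hz hzz
  -- the choice of the data
  have hch : ∀ t : Pool.Agent.Helper86.AP.LE M, ∃ (S0 : Mp M 6) (s : List β) (q : ℕ), s ++ S0.1 = t.1 ∧ 1 ≤ q ∧
      q < S0.1.length + s.length + 2 ∧
      ∀ h, h < s.length → (s ++ S0.1)[h]? = (s ++ S0.1)[h + q]? := by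
    rintro ⟨t, S0, hS0, ⟨s, hs⟩, q, hq, hper⟩
    subst hs
    have hper' : ∀ h, h < s.length → (s ++ S0)[h]? = (s ++ S0)[h + q]? := by
      intro h hh
      exact hper h (by simp; omega)
    by_cases hs0 : s.length = 0
    · refine ⟨⟨S0, hS0⟩, s, 1, rfl, le_rfl, by omega, fun h hh => by omega⟩
    · refine ⟨⟨S0, hS0⟩, s, q, rfl, hq, ?_, hper'⟩
      change q < S0.length + s.length + 2
      by_contra hcon
      have h1 := hper' (s.length - 1) (by omega)
      rw [List.getElem?_eq_none (i := s.length - 1 + q) (by simp; omega),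
        List.getElem?_eq_none_iff] at h1
      simp at h1
      omega
  choose S0 s q h1 h2 h3 h4 using hch
  let f : Mp M 6 × ℕ × ℕ → ℝ≥0∞ := fun x =>
    if x.2.2 < x.1.1.length + x.2.1 + 2 then
      ENNReal.ofReal z ^ (x.1.1.length + x.2.1) else 0
  let g : Pool.Agent.Helper86.AP.LE M → Mp M 6 × ℕ × ℕ := fun t => (S0 t, (s t).length, q t)
  have hg : Function.Injective g := by
    intro t t' h
    have e1 : S0 t = S0 t' := congrArg (fun x => x.1) h
    have e2 : (s t).length = (s t').length := congrArg (fun x => x.2.1) h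
    have e3 : q t = q t' := congrArg (fun x => x.2.2) h
    apply Subtype.ext
    have h5 := h4 t'
    rw [← e1, ← e3, ← e2] at h5
    have h6 := det (S0 t).1 (s t) (s t') (q t) (h2 t) e2 (h4 t) h5
    rw [← h1 t, ← h1 t', ← e1]
    exact h6
  have hfg : ∀ t : Pool.Agent.Helper86.AP.LE M, f (g t) = ENNReal.ofReal z ^ (t : List β).length := by
    intro t
    simp only [f, g]
    rw [if_pos (h3 t)]
    congr 1
    rw [← h1 t, List.length_append]
    omega
  have hsum : W (ENNReal.ofReal z) (Pool.Agent.Helper86.AP.LE M) ≤ ∑' x, f x := by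
    unfold W
    calc ∑' t : Pool.Agent.Helper86.AP.LE M, ENNReal.ofReal z ^ (t : List β).length
        = ∑' t : Pool.Agent.Helper86.AP.LE M, f (g t) := tsum_congr fun t => (hfg t).symm
      _ ≤ ∑' x, f x := ENNReal.tsum_comp_le_tsum_of_injective hg f
  have hinner : ∀ (S : Mp M 6) (k : ℕ), ∑' n : ℕ, f (S, k, n) ≤
      ENNReal.ofReal C * (ENNReal.ofReal z' ^ S.1.length * ENNReal.ofReal z' ^ k) := by
    intro S k
    have e1 : ∑' n : ℕ, f (S, k, n) =
        ∑ n ∈ Finset.range (S.1.length + k + 2), f (S, k, n) := by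
      refine tsum_eq_sum fun n hn => ?_
      simp only [f]
      rw [if_neg]
      simpa using hn
    have e2 : ∑ n ∈ Finset.range (S.1.length + k + 2), f (S, k, n) =
        ((S.1.length + k + 2 : ℕ) : ℝ≥0∞) * ENNReal.ofReal z ^ (S.1.length + k) := by
      rw [Finset.sum_congr rfl (g := fun _ => ENNReal.ofReal z ^ (S.1.length + k))]
      · rw [Finset.sum_const, Finset.card_range, nsmul_eq_mul]
      · intro n hn
        simp only [f]
        rw [if_pos (by simpa using hn)]
    rw [e1, e2, ← pow_add, ← ENNReal.ofReal_pow hz.le, ← ENNReal.ofReal_pow (hz.trans hzz).le,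
      ← ENNReal.ofReal_natCast, ← ENNReal.ofReal_mul (by positivity),
      ← ENNReal.ofReal_mul hC0]
    refine ENNReal.ofReal_le_ofReal ?_
    have := hC (S.1.length + k)
    push_cast at this ⊢
    exact this
  have hgeo : ∑' k : ℕ, ENNReal.ofReal z' ^ k < ⊤ := by
    rw [ENNReal.tsum_geometric]
    rw [ENNReal.inv_lt_top, tsub_pos_iff_lt]
    rw [ENNReal.ofReal_lt_one]
    exact hz1
  have htot : ∑' x, f x ≤ ENNReal.ofReal C * ((W (ENNReal.ofReal z') (Mp M 6)) *
      ∑' k : ℕ, ENNReal.ofReal z' ^ k) := by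
    rw [ENNReal.tsum_prod']
    calc ∑' (S : Mp M 6), ∑' (y : ℕ × ℕ), f (S, y)
        ≤ ∑' (S : Mp M 6), ∑' k : ℕ,
          ENNReal.ofReal C * (ENNReal.ofReal z' ^ S.1.length * ENNReal.ofReal z' ^ k) := by
          refine ENNReal.tsum_le_tsum fun S => ?_
          rw [ENNReal.tsum_prod']
          exact ENNReal.tsum_le_tsum fun k => hinner S k
      _ = ENNReal.ofReal C * ((W (ENNReal.ofReal z') (Mp M 6)) *
          ∑' k : ℕ, ENNReal.ofReal z' ^ k) := by
          simp only [ENNReal.tsum_mul_left, ENNReal.tsum_mul_right]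
          rfl
  refine lt_of_le_of_lt (hsum.trans htot) ?_
  refine ENNReal.mul_lt_top ENNReal.ofReal_lt_top (ENNReal.mul_lt_top ?_ hgeo)
  exact lt_of_le_of_lt (W_Mp_le _ M 6) (ENNReal.pow_lt_top hM)

end Pool.Agent.Helper12.AP
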